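import Mathlib
import Pool.Agent.Work.MP_d1e9a6_pr_h36.Defs

/-!
Sphere model: a continuous map from the cube `I^k` onto the sphere `∑ z_t ^ 2 = 2 z_0` in
`ℝ^(k+1)`, sending exactly the boundary to `0` and injective on the interior; the cells of the
wedge.
-/

noncomputable section

open scoped unitInterval Topology

namespace Pool.Agent.Work.MP_d1e9a6_pr.Top

/-- centred coordinates -/
def yc {k : ℕ} (x : Fin k → I) (i : Fin k) : ℝ := 2 * (x i : ℝ) - 1

/-- the bump `∏ x_i (1 - x_i)` -/
def Pb {k : ℕ} (x : Fin k → I) : ℝ := ∏ i, ((x i : ℝ) * (1 - (x i : ℝ)))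

theorem Pb_nonneg {k : ℕ} (x : Fin k → I) : 0 ≤ Pb x :=
  Finset.prod_nonneg fun i _ => mul_nonneg (x i).2.1 (sub_nonneg.2 (x i).2.2)

theorem Pb_le_one {k : ℕ} (x : Fin k → I) : Pb x ≤ 1 :=
  Finset.prod_le_one (fun i _ => mul_nonneg (x i).2.1 (sub_nonneg.2 (x i).2.2)) fun i _ => by
    have h0 := (x i).2.1
    have h1 := (x i).2.2
    nlinarith

theorem Pb_eq_zero {k : ℕ} (x : Fin k → I) : Pb x = 0 ↔ x ∈ Cube.boundary (Fin k) := by
  unfold Pb Cube.boundary
  rw [Finset.prod_eq_zero_iff]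
  simp only [Finset.mem_univ, true_and, mul_eq_zero, Set.mem_ofPred_eq]
  refine exists_congr fun i => or_congr ?_ ?_
  · exact Iff.symm (Subtype.ext_iff)
  · rw [sub_eq_zero, Subtype.ext_iff]
    exact eq_comm

/-- the denominator -/
def Dn {k : ℕ} (x : Fin k → I) : ℝ := Pb x ^ 2 + ∑ i, yc x i ^ 2

theorem Dn_pos {k : ℕ} (x : Fin k → I) : 0 < Dn x := by
  unfold Dn
  have h1 : 0 ≤ ∑ i, yc x i ^ 2 := Finset.sum_nonneg fun i _ => sq_nonneg _
  rcases h1.eq_or_lt with h | h
  · have h2 : ∀ i, yc x i = 0 := by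
      intro i
      have := (Finset.sum_eq_zero_iff_of_nonneg (fun i _ => sq_nonneg (yc x i))).1 h.symm i
        (Finset.mem_univ i)
      exact pow_eq_zero_iff (two_ne_zero) |>.1 this
    have h3 : Pb x ≠ 0 := by
      unfold Pb
      rw [Finset.prod_ne_zero_iff]
      intro i _
      have := h2 i
      unfold yc at this
      have hx : (x i : ℝ) = 1 / 2 := by linarith
      rw [hx]; norm_num
    have h4 : 0 < Pb x ^ 2 := by positivity
    linarith
  · have : 0 ≤ Pb x ^ 2 := sq_nonneg _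
    linarith

/-- the map `θ` -/
def thf {k : ℕ} (x : Fin k → I) : Fin (k + 1) → ℝ :=
  Fin.cons (2 * Pb x ^ 2 / Dn x) (fun i => 2 * Pb x * yc x i / Dn x)

theorem thf_zero {k : ℕ} (x : Fin k → I) : thf x 0 = 2 * Pb x ^ 2 / Dn x := rfl

theorem thf_succ {k : ℕ} (x : Fin k → I) (i : Fin k) :
    thf x i.succ = 2 * Pb x * yc x i / Dn x := rfl

theorem continuous_yc {k : ℕ} (i : Fin k) : Continuous fun x : Fin k → I => yc x i := by
  unfold yc; fun_prop

theorem continuous_Pb {k : ℕ} : Continuous fun x : Fin k → I => Pb x := by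
  unfold Pb; fun_prop

theorem continuous_Dn {k : ℕ} : Continuous fun x : Fin k → I => Dn x := by
  unfold Dn
  exact (continuous_Pb.pow 2).add (continuous_finsetSum _ fun i _ => (continuous_yc i).pow 2)

theorem continuous_thf {k : ℕ} : Continuous fun x : Fin k → I => thf x := by
  refine continuous_pi fun t => ?_
  refine Fin.cases ?_ (fun i => ?_) t
  · simp only [thf_zero]
    exact ((continuous_const.mul (continuous_Pb.pow 2))).div continuous_Dn
      fun x => (Dn_pos x).ne'
  · simp only [thf_succ]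
    exact ((continuous_const.mul continuous_Pb).mul (continuous_yc i)).div continuous_Dn
      fun x => (Dn_pos x).ne'

theorem thf_sphere {k : ℕ} (x : Fin k → I) : ∑ t, (thf x t) ^ 2 = 2 * thf x 0 := by
  rw [Fin.sum_univ_succ, thf_zero]
  simp only [thf_succ]
  have hD := (Dn_pos x).ne'
  have h1 : ∑ i, (2 * Pb x * yc x i / Dn x) ^ 2 = 4 * Pb x ^ 2 * (∑ i, yc x i ^ 2) / Dn x ^ 2 := by
    rw [Finset.mul_sum, Finset.sum_div]
    refine Finset.sum_congr rfl fun i _ => ?_
    ring
  rw [h1]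
  have h2 : ∑ i, yc x i ^ 2 = Dn x - Pb x ^ 2 := by unfold Dn; ring
  rw [h2]
  field_simp
  ring

theorem thf_eq_zero {k : ℕ} (x : Fin k → I) : thf x = 0 ↔ Pb x = 0 := by
  constructor
  · intro h
    have h0 : thf x 0 = 0 := by rw [h]; rfl
    rw [thf_zero, div_eq_zero_iff] at h0
    rcases h0 with h0 | h0
    · have : Pb x ^ 2 = 0 := by linarith
      exact pow_eq_zero_iff (two_ne_zero) |>.1 this
    · exact absurd h0 (Dn_pos x).ne'
  · intro h
    funext t
    refine Fin.cases ?_ (fun i => ?_) t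
    · rw [thf_zero, h]; simp
    · rw [thf_succ, h]; simp

theorem Pb_eq {k : ℕ} (x : Fin k → I) : Pb x = ∏ i, ((1 - yc x i ^ 2) / 4) := by
  unfold Pb yc
  refine Finset.prod_congr rfl fun i _ => ?_
  ring

theorem yc_abs_le {k : ℕ} (x : Fin k → I) (i : Fin k) : |yc x i| ≤ 1 := by
  have h0 := (x i).2.1
  have h1 := (x i).2.2
  unfold yc
  rw [abs_le]
  constructor <;> linarith

theorem Pb_anti {k : ℕ} (x x' : Fin k → I) (h : ∀ i, |yc x i| ≤ |yc x' i|) : Pb x' ≤ Pb x := by
  rw [Pb_eq, Pb_eq]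
  refine Finset.prod_le_prod (fun i _ => ?_) (fun i _ => ?_)
  · have := yc_abs_le x' i
    have h2 : yc x' i ^ 2 ≤ 1 := by
      rw [← sq_abs]; nlinarith [abs_nonneg (yc x' i)]
    linarith
  · have h2 : yc x i ^ 2 ≤ yc x' i ^ 2 := by
      rw [← sq_abs (yc x i), ← sq_abs (yc x' i)]
      exact pow_le_pow_left₀ (abs_nonneg _) (h i) 2
    linarith

theorem thf_inj_aux {k : ℕ} (x x' : Fin k → I) (hx : 0 < Pb x) (hx' : 0 < Pb x')
    (h : ∀ i, yc x i / Pb x = yc x' i / Pb x') (hle : Pb x ≤ Pb x') : x = x' := by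
  have h1 : ∀ i, yc x' i = (Pb x' / Pb x) * yc x i := by
    intro i
    have := h i
    field_simp at this ⊢
    linarith
  have h2 : 1 ≤ Pb x' / Pb x := by
    rw [le_div_iff₀ hx]; linarith
  have h3 : ∀ i, |yc x i| ≤ |yc x' i| := by
    intro i
    rw [h1 i, abs_mul, abs_of_nonneg (by linarith : 0 ≤ Pb x' / Pb x)]
    nlinarith [abs_nonneg (yc x i)]
  have h4 := Pb_anti x x' h3
  have h5 : Pb x = Pb x' := le_antisymm hle h4
  funext i
  have h6 := h1 i
  rw [h5, div_self hx'.ne', one_mul] at h6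
  unfold yc at h6
  apply Subtype.ext
  linarith

theorem thf_inj {k : ℕ} (x x' : Fin k → I) (h : thf x = thf x') (hx : Pb x ≠ 0) : x = x' := by
  have hx' : Pb x' ≠ 0 := by
    intro h0
    have := (thf_eq_zero x').2 h0
    rw [← h] at this
    exact hx ((thf_eq_zero x).1 this)
  have hxp : 0 < Pb x := lt_of_le_of_ne (Pb_nonneg x) (Ne.symm hx)
  have hxp' : 0 < Pb x' := lt_of_le_of_ne (Pb_nonneg x') (Ne.symm hx')
  have key : ∀ z : Fin k → I, 0 < Pb z → ∀ i, yc z i / Pb z = thf z i.succ / thf z 0 := by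
    intro z hz i
    rw [thf_zero, thf_succ]
    have := (Dn_pos z).ne'
    field_simp
  have hh : ∀ i, yc x i / Pb x = yc x' i / Pb x' := by
    intro i
    rw [key x hxp, key x' hxp', h]
  rcases le_total (Pb x) (Pb x') with hle | hle
  · exact thf_inj_aux x x' hxp hxp' hh hle
  · exact (thf_inj_aux x' x hxp' hxp (fun i => (hh i).symm) hle).symm

theorem thf_surj {k : ℕ} (hk : 0 < k) (z : Fin (k + 1) → ℝ) (hz : ∑ t, z t ^ 2 = 2 * z 0) :
    ∃ x : Fin k → I, thf x = z := by
  rcases eq_or_ne (z 0) 0 with h0 | h0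
  · refine ⟨fun _ => 0, ?_⟩
    have hz0 : z = 0 := by
      rw [h0, mul_zero] at hz
      funext t
      have := (Finset.sum_eq_zero_iff_of_nonneg (fun i _ => sq_nonneg (z i))).1 hz t
        (Finset.mem_univ t)
      exact pow_eq_zero_iff (two_ne_zero) |>.1 this
    rw [hz0, thf_eq_zero, Pb_eq_zero]
    exact ⟨⟨0, hk⟩, Or.inl rfl⟩
  · have hz0 : 0 < z 0 := by
      have h1 : 0 ≤ ∑ t, z t ^ 2 := Finset.sum_nonneg fun i _ => sq_nonneg _
      rw [hz] at h1
      exact lt_of_le_of_ne (by linarith) (Ne.symm h0)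
    -- the direction
    set w : Fin k → ℝ := fun i => z i.succ / z 0 with hw
    set M : ℝ := max ‖w‖ 1 with hM
    have hM1 : 1 ≤ M := le_max_right _ _
    have hMw : ∀ i, |w i| ≤ M := fun i => (norm_le_pi_norm w i).trans (le_max_left _ _)
    have hMpos : 0 < M := by linarith
    set g : ℝ → ℝ := fun s => ∏ i, ((1 - (s * w i) ^ 2) / 4) - s with hg
    have hgc : Continuous g := by
      rw [hg]; fun_prop
    have hg0 : 0 ≤ g 0 := by
      simp only [hg, zero_mul, sub_zero]
      refine Finset.prod_nonneg fun i _ => ?_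
      norm_num
    have hbd : ∀ s : ℝ, 0 ≤ s → s ≤ 1 / M → ∀ i, |s * w i| ≤ 1 := by
      intro s hs0 hs1 i
      rw [abs_mul, abs_of_nonneg hs0]
      calc s * |w i| ≤ (1 / M) * M := mul_le_mul hs1 (hMw i) (abs_nonneg _) (by positivity)
        _ = 1 := by field_simp
    have hg1 : g (1 / M) ≤ 0 := by
      simp only [hg]
      rcases le_total ‖w‖ 1 with h1 | h1
      · have hM' : M = 1 := max_eq_right h1
        rw [hM']
        have : ∏ i, ((1 - (1 / 1 * w i) ^ 2) / 4) ≤ 1 := by
          refine Finset.prod_le_one (fun i _ => ?_) fun i _ => ?_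
          · have hb := hbd (1 / M) (by positivity) le_rfl i
            rw [hM'] at hb
            have : (1 / 1 * w i) ^ 2 ≤ 1 := by
              rw [← sq_abs]; nlinarith [abs_nonneg (1 / 1 * w i)]
            linarith
          · nlinarith [sq_nonneg (1 / 1 * w i)]
        linarith
      · have hM' : M = ‖w‖ := max_eq_left h1
        have : Nonempty (Fin k) := ⟨⟨0, hk⟩⟩
        obtain ⟨i, hi⟩ : ∃ i, ‖w i‖ = ‖w‖ := by
          obtain ⟨i, -, hi⟩ := Finset.exists_max_image (Finset.univ : Finset (Fin k))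
            (fun i => ‖w i‖) Finset.univ_nonempty
          refine ⟨i, le_antisymm (norm_le_pi_norm w i) ?_⟩
          exact (pi_norm_le_iff_of_nonneg (norm_nonneg _)).2 fun j => hi j (Finset.mem_univ j)
        have hz : ∏ i, ((1 - (1 / M * w i) ^ 2) / 4) = 0 := by
          refine Finset.prod_eq_zero (Finset.mem_univ i) ?_
          have : (1 / M * w i) ^ 2 = 1 := by
            rw [← sq_abs, abs_mul, abs_of_nonneg (by positivity : 0 ≤ 1 / M), hM']
            have : |w i| = ‖w‖ := hi
            rw [this]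
            have : ‖w‖ ≠ 0 := by
              have := hM'
              linarith
            field_simp
          rw [this]; norm_num
        rw [hz]
        have : 0 < 1 / M := by positivity
        linarith
    obtain ⟨s, ⟨hs0, hs1⟩, hgs⟩ : ∃ s ∈ Set.Icc (0 : ℝ) (1 / M), g s = 0 := by
      have := intermediate_value_Icc' (by positivity : (0 : ℝ) ≤ 1 / M) hgc.continuousOn
      exact this ⟨hg1, hg0⟩
    have hsw := hbd s hs0 hs1
    let x : Fin k → I := fun i => ⟨(1 + s * w i) / 2, by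
      have := abs_le.1 (hsw i)
      constructor <;> linarith⟩
    have hyx : ∀ i, yc x i = s * w i := by
      intro i
      simp only [yc, x]; ring
    have hPx : Pb x = s := by
      rw [Pb_eq]
      simp only [hyx]
      simp only [hg] at hgs
      linarith
    have hs : s ≠ 0 := by
      intro hs
      rw [hs] at hgs
      simp only [hg, zero_mul, sub_zero] at hgs
      rw [Finset.prod_eq_zero_iff] at hgs
      obtain ⟨i, _, hi⟩ := hgs
      norm_num at hi
    have hDx : Dn x = s ^ 2 * (1 + ∑ i, w i ^ 2) := by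
      unfold Dn
      rw [hPx]
      simp only [hyx, mul_pow]
      rw [← Finset.mul_sum]; ring
    have hW : z 0 * (1 + ∑ i, w i ^ 2) = 2 := by
      have h1 : z 0 ^ 2 * (1 + ∑ i, w i ^ 2) = 2 * z 0 := by
        rw [← hz, Fin.sum_univ_succ, mul_add, mul_one, Finset.mul_sum]
        congr 1
        refine Finset.sum_congr rfl fun i _ => ?_
        simp only [hw]
        field_simp
      have h2 : z 0 * (z 0 * (1 + ∑ i, w i ^ 2)) = z 0 * 2 := by
        rw [← mul_assoc, ← pow_two, h1]; ring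
      exact mul_left_cancel₀ h0 h2
    have hWpos : 0 < 1 + ∑ i, w i ^ 2 := by
      have : 0 ≤ ∑ i, w i ^ 2 := Finset.sum_nonneg fun i _ => sq_nonneg _
      linarith
    have hz0' : z 0 = 2 / (1 + ∑ i, w i ^ 2) := by
      rw [eq_div_iff hWpos.ne']; exact hW
    refine ⟨x, ?_⟩
    funext t
    refine Fin.cases ?_ (fun i => ?_) t
    · rw [thf_zero, hPx, hDx, hz0']
      field_simp
    · rw [thf_succ, hPx, hDx, hyx]
      have : z i.succ = z 0 * w i := by
        simp only [hw]; field_simp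
      rw [this, hz0']
      field_simp

theorem exists_theta (k : ℕ) (hk : 0 < k) : ∃ θ : C(Fin k → I, Fin (k+1) → ℝ),
    (∀ x, ∑ t, (θ x t)^2 = 2 * θ x 0) ∧
    (∀ x, θ x = 0 ↔ x ∈ Cube.boundary (Fin k)) ∧
    (∀ x x', θ x = θ x' → x ∉ Cube.boundary (Fin k) → x = x') ∧
    (∀ z : Fin (k+1) → ℝ, ∑ t, z t ^2 = 2 * z 0 → ∃ x, θ x = z) := by
  refine ⟨⟨thf, continuous_thf⟩, thf_sphere, ?_, ?_, fun z hz => thf_surj hk z hz⟩
  · intro x
    rw [← Pb_eq_zero]
    exact thf_eq_zero x
  · intro x x' h hx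
    refine thf_inj x x' h ?_
    rwa [Ne, Pb_eq_zero]

theorem zero_mem_wedge (N k : ℕ) : (0 : Fin N × Fin (k + 1) → ℝ) ∈ wedge N k := Or.inl rfl

theorem wedge_cells (N k : ℕ) (hk : 0 < k) : ∃ c : Fin N → C(Fin k → I, wedge N k),
    (∀ i x, c i x = ⟨0, zero_mem_wedge N k⟩ ↔ x ∈ Cube.boundary (Fin k)) ∧
    (∀ i j x x', x ∉ Cube.boundary (Fin k) → c i x = c j x' → i = j ∧ x = x') ∧
    (∀ y : wedge N k, (y : Fin N × Fin (k + 1) → ℝ) = 0 ∨ ∃ i x, c i x = y) := by
  obtain ⟨θ, h1, h2, h3, h4⟩ := exists_theta k hk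
  let cf : Fin N → (Fin k → I) → (Fin N × Fin (k + 1) → ℝ) :=
    fun i x p => if p.1 = i then θ x p.2 else 0
  have hcf : ∀ i x, cf i x ∈ wedge N k := by
    intro i x
    refine Or.inr ⟨i, ?_, ?_⟩
    · intro j t hj
      simp only [cf, if_neg hj]
    · simp only [cf, if_true]
      exact h1 x
  have hcont : ∀ i, Continuous (cf i) := by
    intro i
    refine continuous_pi fun p => ?_
    by_cases hp : p.1 = i
    · simp only [cf, if_pos hp]
      exact (continuous_apply p.2).comp θ.continuous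
    · simp only [cf, if_neg hp]
      exact continuous_const
  have hval : ∀ i x t, cf i x (i, t) = θ x t := by
    intro i x t; simp only [cf, if_true]
  refine ⟨fun i => ⟨fun x => ⟨cf i x, hcf i x⟩, (hcont i).subtype_mk _⟩, ?_, ?_, ?_⟩
  · intro i x
    rw [← h2 x]
    constructor
    · intro h
      have h' : cf i x = 0 := congrArg Subtype.val h
      funext t
      rw [← hval i x t, h']; rfl
    · intro h
      apply Subtype.ext
      show cf i x = 0
      funext p
      simp only [cf, h, Pi.zero_apply, ite_self]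
  · intro i j x x' hx h
    have h' : cf i x = cf j x' := congrArg Subtype.val h
    have hne : θ x ≠ 0 := fun h0 => hx ((h2 x).1 h0)
    have hij : i = j := by
      by_contra hij
      apply hne
      funext t
      rw [← hval i x t, h']
      simp only [cf, if_neg hij, Pi.zero_apply]
    subst hij
    refine ⟨rfl, h3 x x' ?_ hx⟩
    funext t
    rw [← hval i x t, h', hval]
  · intro y
    rcases y.2 with hy | ⟨i, hy1, hy2⟩
    · exact Or.inl hy
    · right
      obtain ⟨x, hx⟩ := h4 (fun t => y.1 (i, t)) hy2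
      refine ⟨i, x, ?_⟩
      apply Subtype.ext
      show cf i x = y.1
      funext p
      obtain ⟨j, t⟩ := p
      by_cases hj : j = i
      · subst hj
        rw [hval, hx]
      · simp only [cf, if_neg hj]
        exact (hy1 j t hj).symm

end Pool.Agent.Work.MP_d1e9a6_pr.Top
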