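import Pool.Agent.Work.MP_d1e9a6_pr_h36.Glue
import Pool.Agent.Work.MP_d1e9a6_pr_helper2.Sphere

/-!
Maps out of the wedge of spheres: existence and uniqueness up to homotopy from the cells.
-/

open scoped unitInterval Topology
open Set

noncomputable section

namespace Pool.Agent.Work.MP_d1e9a6_pr.Top

/-- the wedge point -/
def wzero (N k : ℕ) : wedge N k := ⟨0, zero_mem_wedge N k⟩

/-- the cells of the wedge -/
def wcell (N k : ℕ) (hk : 0 < k) : Fin N → C(Fin k → I, wedge N k) :=
  (wedge_cells N k hk).choose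

theorem wcell_eq_zero (N k : ℕ) (hk : 0 < k) (i : Fin N) (x : Fin k → I) :
    wcell N k hk i x = wzero N k ↔ x ∈ Cube.boundary (Fin k) :=
  (wedge_cells N k hk).choose_spec.1 i x

theorem wcell_inj (N k : ℕ) (hk : 0 < k) (i j : Fin N) (x x' : Fin k → I)
    (hx : x ∉ Cube.boundary (Fin k)) (h : wcell N k hk i x = wcell N k hk j x') :
    i = j ∧ x = x' :=
  (wedge_cells N k hk).choose_spec.2.1 i j x x' hx h

theorem wcell_cover (N k : ℕ) (hk : 0 < k) (y : wedge N k) :
    y = wzero N k ∨ ∃ i x, wcell N k hk i x = y := by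
  rcases (wedge_cells N k hk).choose_spec.2.2 y with h | h
  · exact Or.inl (Subtype.ext h)
  · exact Or.inr h

/-- (b1) the cell structure of the wedge -/
theorem wedge_cellStr (N k : ℕ) (hk : 0 < k) :
    CellStr ({wzero N k} : Set (wedge N k)) univ k (wcell N k hk) where
  closed := isClosed_singleton
  sub := subset_univ _
  mem := fun _ _ => mem_univ _
  bd := fun i x hx => (wcell_eq_zero N k hk i x).2 hx
  int := fun i x hx h => hx ((wcell_eq_zero N k hk i x).1 h)
  inj := fun i j x x' hx h => wcell_inj N k hk i j x x' hx h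
  cover := fun y _ => wcell_cover N k hk y

variable {Y : Type*} [TopologicalSpace Y] {y0 : Y}

/-- (b2) a family of loops gives a map of the wedge. -/
theorem exists_wedge_map (N k : ℕ) (hk : 0 < k) (u : Fin N → GenLoop (Fin k) Y y0) :
    ∃ w : C(wedge N k, Y), w (wzero N k) = y0 ∧ ∀ i x, w (wcell N k hk i x) = u i x := by
  obtain ⟨G', h1, h2, h3⟩ := (wedge_cellStr N k hk).glue (S := Unit) (G := fun _ => y0)
    continuousOn_const (fun i => (u i).1.comp ⟨fun p : (Fin k → I) × Unit => p.1, continuous_fst⟩)
    (by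
      intro i x s hx
      exact (u i).2 x hx)
  have hc : Continuous G' := by
    rw [univ_prod_univ] at h1
    exact continuousOn_univ.1 h1
  refine ⟨⟨fun x => G' (x, ()), hc.comp (continuous_id.prodMk continuous_const)⟩, ?_, ?_⟩
  · exact h2 _ rfl ()
  · intro i x
    exact h3 i x ()

/-- the loop of the `i`-th sphere under a map of the wedge -/
def wloop (N k : ℕ) (hk : 0 < k) (w : C(wedge N k, Y)) (hw : w (wzero N k) = y0) (i : Fin N) :
    GenLoop (Fin k) Y y0 :=
  ⟨w.comp (wcell N k hk i), fun x hx => by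
    rw [ContinuousMap.comp_apply, (wcell_eq_zero N k hk i x).2 hx, hw]⟩

theorem wloop_apply (N k : ℕ) (hk : 0 < k) (w : C(wedge N k, Y)) (hw : w (wzero N k) = y0)
    (i : Fin N) (x : Fin k → I) : wloop N k hk w hw i x = w (wcell N k hk i x) := rfl

/-- (b3) two maps of the wedge with homotopic loops are homotopic (relative to the wedge
point). -/
theorem wedge_homotopicRel (N k : ℕ) (hk : 0 < k) (w w' : C(wedge N k, Y))
    (hw : w (wzero N k) = y0) (hw' : w' (wzero N k) = y0)
    (h : ∀ i, GenLoop.Homotopic (wloop N k hk w hw i) (wloop N k hk w' hw' i)) :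
    w.HomotopicRel w' {wzero N k} := by
  let H : ∀ i, ContinuousMap.HomotopyRel (wloop N k hk w hw i).1 (wloop N k hk w' hw' i).1
    (Cube.boundary (Fin k)) := fun i => Classical.choice (h i)
  obtain ⟨G', h1, h2, h3⟩ := (wedge_cellStr N k hk).glue (S := I) (G := fun _ => y0)
    continuousOn_const
    (fun i => (H i).toContinuousMap.comp
      ⟨fun p : (Fin k → I) × I => (p.2, p.1), continuous_swap⟩)
    (by
      intro i x s hx
      have h4 := (H i).eq_fst s hx
      exact h4.trans ((wloop N k hk w hw i).2 x hx))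
  have hc : Continuous G' := by
    rw [univ_prod_univ] at h1
    exact continuousOn_univ.1 h1
  refine ⟨{ toFun := fun p => G' (p.2, p.1)
            continuous_toFun := hc.comp continuous_swap
            map_zero_left := ?_
            map_one_left := ?_
            prop' := ?_ }⟩
  · intro x
    show G' (x, 0) = w x
    rcases wcell_cover N k hk x with hx | ⟨i, z, hx⟩
    · rw [h2 x hx 0, hx, hw]
    · rw [← hx, h3]
      exact (H i).map_zero_left z
  · intro x
    show G' (x, 1) = w' x
    rcases wcell_cover N k hk x with hx | ⟨i, z, hx⟩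
    · rw [h2 x hx 1, hx, hw']
    · rw [← hx, h3]
      exact (H i).map_one_left z
  · intro t x hx
    show G' (x, t) = w x
    have hx' : x = wzero N k := hx
    rw [h2 x hx t, hx', hw]

theorem wedge_homotopic (N k : ℕ) (hk : 0 < k) (w w' : C(wedge N k, Y))
    (hw : w (wzero N k) = y0) (hw' : w' (wzero N k) = y0)
    (h : ∀ i, GenLoop.Homotopic (wloop N k hk w hw i) (wloop N k hk w' hw' i)) :
    w.Homotopic w' := by
  obtain ⟨H⟩ := wedge_homotopicRel N k hk w w' hw hw' h
  exact ⟨H.toHomotopy⟩

/-- the same with loops given in advance -/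
theorem wedge_homotopic' (N k : ℕ) (hk : 0 < k) (w w' : C(wedge N k, Y))
    (hw : w (wzero N k) = y0) (hw' : w' (wzero N k) = y0)
    (u u' : Fin N → GenLoop (Fin k) Y y0) (hu : ∀ i x, w (wcell N k hk i x) = u i x)
    (hu' : ∀ i x, w' (wcell N k hk i x) = u' i x)
    (h : ∀ i, GenLoop.Homotopic (u i) (u' i)) : w.Homotopic w' := by
  refine wedge_homotopic N k hk w w' hw hw' fun i => ?_
  have h1 : wloop N k hk w hw i = u i := by
    apply GenLoop.ext
    intro x
    rw [wloop_apply, hu]
  have h2 : wloop N k hk w' hw' i = u' i := by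
    apply GenLoop.ext
    intro x
    rw [wloop_apply, hu']
  rw [h1, h2]
  exact h i

end Pool.Agent.Work.MP_d1e9a6_pr.Top
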